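import Mathlib
import Pool.Agent.TH409.SH.Fin2

set_option autoImplicit false

/-!
# Bounded height on sparse curves, for varieties that are not uniruled

Let `X` be a closed subvariety of projective `n`-space over a number field `k`, given by forms `FF`
with coefficients in `𝓞 k`, of degree at most `d` and with sum of the houses of the coefficients at
most `A`, which generate a prime ideal `I`.

(a) Suppose that `X` is not uniruled (for instance of general type), and let `r ≥ 1`.  There is a
proper closed subset `Z = X ∩ {G = 0}` such that for ALL number fields `K ⊇ k`, all `t ∈ K`, all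
exponents `l_1, …, l_r` and all vectors `v_1, …, v_r` with coordinates in `K`: if the point `x` with
homogeneous coordinates `∑ t ^ (l_j) v_j` lies on `X` and not on `Z`, then

  `h(x) ≤ (1 + 8 (4 d) ^ r) (d h(v) + log (A r ^ d))`

where `h` is the absolute logarithmic Weil height and `h(v)` the height of `(v_1 : … : v_r)`, that
is the height of the rational curve `T ↦ ∑ T ^ (l_j) v_j`.  So the points of `X` off `Z` on a
rational curve with `r` terms have height bounded in terms of the height of the curve only,
independently of its degree, of the field and of the parameter `t`.  In particular for every number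
field `K ⊇ k` and every `B` there are only finitely many points in `(X ∖ Z)(K)` on curves with `r`
terms and height at most `B`, with parameter in `K`.

(b) If `X` is uniruled, this fails: for some `r` and every proper closed subset `G = 0` there are a
number field `K ⊇ k` and one curve with `r` terms on which the points of `X(K)` off `G = 0` have
unbounded height.

Method: a gap principle for lacunary polynomials evaluated at an algebraic number (Lenstra) splits
the vanishing sum `F (∑ t ^ (l_j) v_j) = 0` into clusters of exponents, Dirichlet's box principle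
gives small exponents in the same class, moving along the difference gives a rational curve with
`r` terms on `X` through the point; the nonconstant ones lie in a fixed hypersurface since `X` is
not uniruled.
-/

namespace Pool.Agent.Results.MP_7ede32_ag.BoundedHeight

open NumberField MvPolynomial Pool.Agent.H458.Sp Pool.Agent.H533R3.SL Pool.Agent.TH409.SH

theorem result (k : Type) [Field k] [NumberField k] (n : ℕ)
    (FF : Finset (MvPolynomial (Fin (n + 1)) (𝓞 k))) (d : ℕ) (hd : 1 ≤ d) (A : ℝ) (hA : 1 ≤ A)
    (hFF : ∀ F ∈ FF, (∃ e, e ≤ d ∧ F.IsHomogeneous e) ∧ nrm F ≤ A)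
    (hprime : (idealK FF).IsPrime) :
    (¬ Uniruled (idealK FF) → ∀ r : ℕ, 1 ≤ r →
      ∃ G : MvPolynomial (Fin (n + 1)) k, (∃ e, G.IsHomogeneous e) ∧ G ∉ idealK FF ∧
        (∀ (K : Type) [Field K] [NumberField K] [Algebra k K] (t : K) (l : Fin r → ℕ)
          (v : Fin r → Fin (n + 1) → K) (x : Fin (n + 1) → K),
          OnSparse t l v x → IsZero (FF : Set (MvPolynomial (Fin (n + 1)) (𝓞 k))) x →
          aeval x G ≠ 0 →
          ah K x ≤ (1 + 8 * (4 * d) ^ r) *
            (d * ah K (fun q : Fin r × Fin (n + 1) => v q.1 q.2) + Real.log (A * r ^ d))) ∧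
        ∀ (K : Type) [Field K] [NumberField K] [Algebra k K] (B : ℝ),
          {P : Projectivization K (Fin (n + 1) → K) | ∃ (t : K) (l : Fin r → ℕ)
            (v : Fin r → Fin (n + 1) → K) (x : Fin (n + 1) → K) (h : x ≠ 0),
            P = Projectivization.mk K x h ∧ OnSparse t l v x ∧
            IsZero (FF : Set (MvPolynomial (Fin (n + 1)) (𝓞 k))) x ∧ aeval x G ≠ 0 ∧
            ah K (fun q : Fin r × Fin (n + 1) => v q.1 q.2) ≤ B}.Finite) ∧
    (Uniruled (idealK FF) → ∃ r : ℕ, 1 ≤ r ∧
      ∀ G : MvPolynomial (Fin (n + 1)) k, (∃ e, G.IsHomogeneous e) → G ∉ idealK FF →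
        ∃ (K : Type) (_ : Field K) (_ : NumberField K) (_ : Algebra k K) (l : Fin r → ℕ)
          (v : Fin r → Fin (n + 1) → K), ∀ B : ℝ, ∃ (t : K) (x : Fin (n + 1) → K),
          OnSparse t l v x ∧ IsZero (FF : Set (MvPolynomial (Fin (n + 1)) (𝓞 k))) x ∧
          aeval x G ≠ 0 ∧ B < ah K x) :=
  nonuniruled_main k n FF d hd A hA hFF hprime

end Pool.Agent.Results.MP_7ede32_ag.BoundedHeight
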