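import Pool.Agent.TH138.LG.Conv

set_option autoImplicit false

/-!
# Lang's exceptional set and formal languages of points

Let `X` be an integral closed subvariety of projective `n`-space over a field `k`, given by the
forms `FF` (`Ideal.span FF` is prime), and suppose that `X` is not uniruled, for example of general
type and of positive dimension.

Words over a finite alphabet `A` with a separator are read as vectors in a number system with
base `b` (`Pool.Agent.TH138.LG.value`): there is a counter `i` for the separators, and a letter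
`a` in phase `i` replaces the active coordinates `x j` by `b * x j + δ i a j`. With one phase these
are the words of digit vectors; with `n + 1` phases and `act i j ↔ i = j` these are the words
`x₀ # x₁ # ⋯ # xₙ` of expansions of the coordinates.

For every `s` there is ONE proper closed subset `Z_s` of `X` (cut out by a form `G s`) such that for
all extension fields `L` of `k`, all bases `b` in `L` (not zero, not a root of unity), all
alphabets, digits and phases: a language of words (with boundedly many separators) which represent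
points of `X` and which is `s`-iterative (all words with at least `p` letters can be pumped at `s`
places) represents only finitely many points off `Z_s`, and these are represented by words with
less than `p` letters. Context-free languages are `2`-iterative with an explicit `p`. So
`X \ Z_2` contains no infinite context-free language of points, over any field and in any base.

Conversely, if `X` is uniruled and the characteristic is zero then some iterative language of
points of `X` in base `2`, over an extension field, is Zariski dense in `X`.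
-/

namespace Pool.Agent.Results.MP_7ede32_ag.ContextFreeImmune

open Pool.Agent.TH138.LG Pool.Agent.H533R3.SL

theorem result (k : Type) [Field k] (n : ℕ) (FF : Finset (MvPolynomial (Fin (n + 1)) k))
    (hFF : ∀ F ∈ FF, ∃ e, F.IsHomogeneous e)
    (hprime : (Ideal.span (FF : Set (MvPolynomial (Fin (n + 1)) k))).IsPrime) :
    (¬ Uniruled (Ideal.span (FF : Set (MvPolynomial (Fin (n + 1)) k))) →
      ∃ G : ℕ → MvPolynomial (Fin (n + 1)) k,
        (∀ s, (∃ e, (G s).IsHomogeneous e) ∧ G s ∉ Ideal.span (FF : Set _)) ∧
        ∀ (L : Type) [Field L] [Algebra k L] (b : L), b ≠ 0 → (∀ m : ℕ, 0 < m → b ^ m ≠ 1) →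
        ∀ (A : Type) [Finite A] (act : ℕ → Fin (n + 1) → Bool) (δ : ℕ → A → Fin (n + 1) → L)
          (𝓛 : Language (Option A)), (∃ m, ∀ w ∈ 𝓛, w.countP Option.isNone ≤ m) →
          (∀ w ∈ 𝓛, value b act δ w ≠ 0 ∧
            ∀ F ∈ FF, MvPolynomial.aeval (value b act δ w) F = 0) →
          (∀ s p, Iterative s p 𝓛 → (offPts b act δ 𝓛 (G s)).Finite ∧
            offPts b act δ 𝓛 (G s) = offPts b act δ {w | w ∈ 𝓛 ∧ w.length < p} (G s)) ∧
          (∀ g : ContextFreeGrammar (Option A), g.language = 𝓛 →
            (offPts b act δ 𝓛 (G 2)).Finite ∧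
            offPts b act δ 𝓛 (G 2) = offPts b act δ
              {w | w ∈ 𝓛 ∧ w.length < width g ^ (inputs g).card + 1} (G 2))) ∧
    (Uniruled (Ideal.span (FF : Set (MvPolynomial (Fin (n + 1)) k))) → CharZero k →
      ∃ (L : Type) (_ : Field L) (_ : Algebra k L) (A : Type) (_ : Finite A)
        (δ : ℕ → A → Fin (n + 1) → L) (s p : ℕ) (𝓛 : Language (Option A)),
        Iterative s p 𝓛 ∧ (∀ w ∈ 𝓛, w.countP Option.isNone = 0) ∧
        (∀ w ∈ 𝓛, value (2 : L) (fun _ _ => true) δ w ≠ 0 ∧
          ∀ F ∈ FF, MvPolynomial.aeval (value (2 : L) (fun _ _ => true) δ w) F = 0) ∧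
        ∀ G : MvPolynomial (Fin (n + 1)) k, (∃ e, G.IsHomogeneous e) →
          G ∉ Ideal.span (FF : Set _) →
          ¬ (offPts (2 : L) (fun _ _ => true) δ 𝓛 G).Finite) := by
  classical
  refine ⟨fun hnu => ?_, fun hu hk => ?_⟩
  · -- a common bound for the degrees
    obtain ⟨d, hd, hdeg⟩ : ∃ d, 1 ≤ d ∧ ∀ F ∈ (FF : Set (MvPolynomial (Fin (n + 1)) k)),
        ∃ e, e ≤ d ∧ F.IsHomogeneous e := by
      choose! e he using hFF
      refine ⟨1 + ∑ F ∈ FF, e F, by omega, fun F hF => ⟨e F, ?_, he F hF⟩⟩
      have := Finset.single_le_sum (f := e) (fun _ _ => Nat.zero_le _) hF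
      omega
    choose G hG1 hG2 hG3 using fun s : ℕ =>
      exists_hyper (FF : Set (MvPolynomial (Fin (n + 1)) k)) hprime hnu d hd hdeg (2 ^ s)
    refine ⟨G, fun s => ⟨hG1 s, hG2 s⟩, ?_⟩
    intro L _ _ b hb0 hb A _ act δ 𝓛 hsep hX
    have main : ∀ s p, Iterative s p 𝓛 → (offPts b act δ 𝓛 (G s)).Finite ∧
        offPts b act δ 𝓛 (G s) = offPts b act δ {w | w ∈ 𝓛 ∧ w.length < p} (G s) := by
      intro s p hit
      obtain ⟨e, he⟩ := hG1 s
      have h1 := points_short (FF : Set (MvPolynomial (Fin (n + 1)) k)) s p (G s) e he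
        (fun c l => hG3 s L c l) b hb0 hb act δ 𝓛 hsep hX hit
      exact ⟨h1 ▸ offPts_finite b act δ 𝓛 p (G s), h1⟩
    refine ⟨main, ?_⟩
    rintro g rfl
    exact main 2 _ (iterative_of_grammar g)
  · obtain ⟨L, hL, hA, A, hAf, δ, s, p, 𝓛, h1, h2, h3, h4⟩ := dense_language _ hu
    exact ⟨L, hL, hA, A, hAf, δ, s, p, 𝓛, h1, h2,
      fun w hw => ⟨(h3 w hw).1, fun F hF => (h3 w hw).2 F (Ideal.subset_span hF)⟩, h4⟩

end Pool.Agent.Results.MP_7ede32_ag.ContextFreeImmune
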