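import Pool.Agent.W659.FK.Final
import Pool.Agent.W659.FD.Main

/-!
# Lang's conjecture over all number fields: fibres without points

`E_i : y² = x³ + a_i x` or `y² = x³ + b_i` (`i = 1, …, r`) are elliptic curves with complex
multiplication, `A = E_1 × … × E_r`, and `F(V; t)` is a polynomial with integer coefficients in the
homogeneous coordinates `V_i = (V_{i0} : V_{i1} : V_{i2})` of the plane cubics `E_i` and in parameters
`t = (t_1, …, t_n)`, multihomogeneous of even degree `d_i` in each `V_i`. The variety is the double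
cover

  `𝒳 : w² = F(P; t)`, `P ∈ A`,

of `A × 𝔸ⁿ` (of `A × ℙ^(n-1)` if `F` is homogeneous of even degree `2k` in `t`; then `𝒳` has
dimension `r + n - 1` and, if its singularities are mild, it is of general type as soon as `k > n`
and all `d_i > 0`).

Hypothesis: for no complex point `P` of `A` is the polynomial `F(P; t)` a square, that is, the
restriction of the cover to `{P} × 𝔸ⁿ` is irreducible for every `P ∈ A(ℂ)`.

Theorem (part 1): for **every number field `K`**, of degree `N`, the number of the `t ∈ (𝓞 K)ⁿ` with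
coordinates at most `H` in an integral basis, such that the fibre `𝒳_t : w² = F(P; t)` (a double
cover of `A`) has a `K`-rational point, is at most `(2H+1)^(nN) exp(-c log H / log log H)` for
`H ≥ H₀`. So, for one variety `𝒳` and all finite extensions `K` of `ℚ` at the same time, `100 %` of
the fibres of `𝒳` over the integral points of the base have no `K`-rational point, although the
groups `A(K)` become infinite, of arbitrarily large rank.

Part 2 is an explicit class in every dimension: `w² = t₀ t₁ ∑_j f_j(P) t₀^(2(k-j)) t₁^(2j)`, where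
`f_0, …, f_k` are arbitrary forms of the same even multidegree without common zero on `A(ℂ)`.

Over `K = ℚ` the starting hand-in `MP_2ae8fe_ag/FibresWithoutPoints` has a power saving for the same
covers; here `K` is arbitrary.

(The proof is in the library folders `Pool/Agent/W659` and `Pool/Agent/H901R3` of the starting
repository, theorem `mainFK`, which no starting hand-in states; this file hands it in.)
-/

set_option autoImplicit false

namespace Pool.Agent.Results.MP_7ede32_ag.EveryNumberField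

open MvPolynomial NumberField Pool.Agent.W659.FD

/-- `V` is a vector of homogeneous coordinates of a `K`-rational point of the curve
`y² = x³ + a x + b`. -/
def OnCurve {K : Type} [Field K] (a b : ℤ) (V : Fin 3 → K) : Prop :=
  V ≠ 0 ∧ V 1 ^ 2 * V 2 = V 0 ^ 3 + a * V 0 * V 2 ^ 2 + b * V 2 ^ 3

/-- The value `F(V; t)` of the polynomial `F` with integer coefficients in the coordinates
`V i j` (`i : Fin r`, `j : Fin 3`) and in the parameters `t k` (`k : Fin n`). -/
noncomputable def value {K : Type} [Field K] {r n : ℕ}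
    (F : MvPolynomial ((Fin r × Fin 3) ⊕ Fin n) ℤ) (V : Fin r → Fin 3 → K) (t : Fin n → K) : K :=
  aeval (Sum.elim (fun ij => V ij.1 ij.2) t) F

/-- The polynomial `F(V; T_1, …, T_n)` in the `n` variables `T_k`. -/
noncomputable def specialize {K : Type} [Field K] {r n : ℕ}
    (F : MvPolynomial ((Fin r × Fin 3) ⊕ Fin n) ℤ) (V : Fin r → Fin 3 → K) :
    MvPolynomial (Fin n) K :=
  aeval (Sum.elim (fun ij => C (V ij.1 ij.2)) X) F

/-- The coefficient vectors `c`, with `|c (k, j)| ≤ H`, of the `t ∈ (𝓞 K)ⁿ`, `t_k = ∑ c (k, j) ω_j`,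
for which the double cover `w² = F(P; t)` of `E_1 × … × E_r` has a `K`-rational point. -/
def FibresWithPoint {r n N : ℕ} (K : Type) [Field K] [NumberField K]
    (ω : Module.Basis (Fin N) ℤ (𝓞 K)) (a b : Fin r → ℤ)
    (F : MvPolynomial ((Fin r × Fin 3) ⊕ Fin n) ℤ) (H : ℕ) : Set (Fin n × Fin N → ℤ) :=
  {c | (∀ s, |c s| ≤ H) ∧ ∃ (V : Fin r → Fin 3 → K) (w : K), (∀ i, OnCurve (a i) (b i) (V i)) ∧
    w ^ 2 = value F V (fun k => ((∑ j, c (k, j) • ω j : 𝓞 K) : K))}

/-- **Over every number field, almost all fibres have no rational point.** -/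
theorem result (r : ℕ) (a b : Fin r → ℤ) (hab : ∀ i, a i * b i = 0 ∧ (a i ≠ 0 ∨ b i ≠ 0)) :
    -- Part 1: all double covers `w² = F(P; t)` which are irreducible over each `P ∈ A(ℂ)`
    (∀ (n : ℕ), 1 ≤ n → ∀ (F : MvPolynomial ((Fin r × Fin 3) ⊕ Fin n) ℤ) (d : Fin r → ℕ),
      (∀ i, Even (d i)) → (∀ e ∈ F.support, ∀ i, ∑ j, e (Sum.inl (i, j)) = d i) →
      (∀ V : Fin r → Fin 3 → ℂ, (∀ i, OnCurve (a i) (b i) (V i)) →
        ∀ g : MvPolynomial (Fin n) ℂ, specialize F V ≠ g ^ 2) →
      ∀ (K : Type) [Field K] [NumberField K] (N : ℕ) (ω : Module.Basis (Fin N) ℤ (𝓞 K)),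
      ∃ c : ℝ, 0 < c ∧ ∃ H₀ : ℕ, ∀ H : ℕ, H₀ ≤ H →
        (((FibresWithPoint K ω a b F H).ncard : ℕ) : ℝ) ≤
          (2 * (H : ℝ) + 1) ^ (n * N) * Real.exp (-c * (Real.log H / Real.log (Real.log H)))) ∧
    -- Part 2: an explicit class of double covers of `A × ℙ¹`
    (∀ (k : ℕ) (f : Fin (k + 1) → MvPolynomial (Fin r × Fin 3) ℤ) (d : Fin r → ℕ),
      (∀ i, Even (d i)) → (∀ s, ∀ e ∈ (f s).support, ∀ i, ∑ j, e (i, j) = d i) →
      (∀ V : Fin r → Fin 3 → ℂ, (∀ i, OnCurve (a i) (b i) (V i)) →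
        ∃ s, aeval (fun ij : Fin r × Fin 3 => V ij.1 ij.2) (f s) ≠ 0) →
      ∀ (K : Type) [Field K] [NumberField K] (N : ℕ) (ω : Module.Basis (Fin N) ℤ (𝓞 K)),
      ∃ c : ℝ, 0 < c ∧ ∃ H₀ : ℕ, ∀ H : ℕ, H₀ ≤ H →
        (({c : Fin 2 × Fin N → ℤ | (∀ s, |c s| ≤ H) ∧ ∃ (V : Fin r → Fin 3 → K) (w t₀ t₁ : K),
          (∀ i, OnCurve (a i) (b i) (V i)) ∧ t₀ = ((∑ j, c (0, j) • ω j : 𝓞 K) : K) ∧
          t₁ = ((∑ j, c (1, j) • ω j : 𝓞 K) : K) ∧
          w ^ 2 = t₀ * t₁ * ∑ j : Fin (k + 1), aeval (fun ij : Fin r × Fin 3 => V ij.1 ij.2) (f j) *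
              (t₀ ^ (2 * (k - (j : ℕ))) * t₁ ^ (2 * (j : ℕ)))}.ncard : ℕ) : ℝ) ≤
          (2 * (H : ℝ) + 1) ^ (2 * N) * Real.exp (-c * (Real.log H / Real.log (Real.log H)))) := by
  constructor
  · intro n hn F d hd hF hns K _ _ N ω
    exact Pool.Agent.W659.FK.mainFK r n hn a b hab F d hd hF hns K N ω
  · intro k f d hd hf hz K _ _ N ω
    obtain ⟨c, hc, H₀, h⟩ := Pool.Agent.W659.FK.mainFK r 2 (by norm_num) a b hab (exPoly f) d hd
      (exPoly_homog f d hf) (fun V hV g => spec_exPoly_ne f V (hz V hV) g) K N ω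
    refine ⟨c, hc, H₀, fun H hH => ?_⟩
    refine le_trans (le_of_eq ?_) (h H hH)
    congr 2
    ext t
    simp only [Set.mem_ofPred_eq, Pool.Agent.W659.FK.FibK]
    refine and_congr_right fun _ => ?_
    constructor
    · rintro ⟨V, w, t₀, t₁, hV, rfl, rfl, hw⟩
      refine ⟨V, w, hV, ?_⟩
      rw [val_exPoly]
      exact hw
    · rintro ⟨V, w, hV, hw⟩
      refine ⟨V, w, _, _, hV, rfl, rfl, ?_⟩
      rw [val_exPoly] at hw
      exact hw

end Pool.Agent.Results.MP_7ede32_ag.EveryNumberField
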