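import Mathlib
import Pool.Agent.TH717.GO.UE

set_option autoImplicit false

/-!
# The strong Lang conjecture for orbits of groups of matrices

Let `X` be the closed subvariety of projective `n`-space over a number field `k` given by the forms
in `FF`, which generate a prime ideal.

(1) Suppose that `X` is not uniruled (for instance of general type, of positive dimension).  For
every `r` there is a proper closed subset `Z = X ∩ {G = 0}` of `X`, defined over `k`, such that for
all fields `K ⊇ k`, all groups `H`, all representations `ρ : H → GL_r(K)`, all matrices `M` with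
`n + 1` rows and `r` columns over `K` and all vectors `v` in `K ^ r`: if all the points with
homogeneous coordinates `M ρ(h) v`, `h ∈ H`, lie on `X`, then

* if `K` is a number field of degree at most `D` over `ℚ`, then at most
  `∏_{f = 1}^{D} |GL_r(𝔽_{2^f})| |GL_r(𝔽_{3^f})|` of these points are outside `Z`, for ALL groups
  and representations;
* if `K` is a number field and the matrices `ρ(h)` have `p`-integral entries for an odd prime `p`,
  then at most `p ^ ([K : ℚ] r ^ 2)` of these points are outside `Z`;
* if the matrices `ρ(h)` have entries in a subring `A` of `K` which has homomorphisms to finite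
  fields `F₁`, `F₂` of different characteristics, then at most `|GL_r(F₁)| |GL_r(F₂)|` of these
  points are outside `Z` (for rational integer entries this is `|GL_r(𝔽₂)| |GL_r(𝔽₃)|`);
* if `H` is finitely generated, then only finitely many of these points are outside `Z`.

Neither `Z` nor the bounds depend on the group, the representation or the orbit, and the bounds
depend neither on `X` nor on `k`.

(2) If `X` is uniruled, this fails: for some `r` and for every proper closed subset `G = 0` there
are `K` and a homomorphism from the infinite cyclic group to `GL_r(K)`, with `p`-integral entries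
for all odd primes `p`, such that an orbit as above lies on `X` and has infinitely many points
outside `G = 0`.

Method: the eigenvalues of a matrix congruent to one modulo an odd `p`, or modulo two ideals with
different residue characteristics, generate a torsion-free group, so the powers of the matrix give
vectors of exponential polynomials in algebraically independent variables; if such a vector lies on
`X`, then each of its points lies on rational curves with at most `r ^ 2` exponents in `X`, and the
nonconstant ones among all these curves are contained in a fixed hypersurface since `X` is not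
uniruled.  The elements with torsion-free eigenvalues generate a normal subgroup along whose cosets
the point is constant off `Z`, and for a finitely generated group over a number field its index
divides the orders of `GL_r` over residue fields of almost all characteristics.
-/

namespace Pool.Agent.Results.MP_7ede32_ag.LinearGroupOrbits

open NumberField MvPolynomial Pool.Agent.H533R3.SL Pool.Agent.TH717.GO

theorem result (k : Type) [Field k] [NumberField k] (n : ℕ)
    (FF : Finset (MvPolynomial (Fin (n + 1)) k)) (hhom : ∀ F ∈ FF, ∃ e, F.IsHomogeneous e)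
    (hprime : (Ideal.span (FF : Set (MvPolynomial (Fin (n + 1)) k))).IsPrime) :
    (¬ Uniruled (Ideal.span (FF : Set (MvPolynomial (Fin (n + 1)) k))) → ∀ r : ℕ,
      ∃ G : MvPolynomial (Fin (n + 1)) k, (∃ e, G.IsHomogeneous e) ∧
        G ∉ Ideal.span (FF : Set (MvPolynomial (Fin (n + 1)) k)) ∧
        (∀ (K : Type) [Field K] [NumberField K] [Algebra k K] (D : ℕ), Module.finrank ℚ K ≤ D →
          ∀ (H : Type) [Group H]
          (ρ : H →* Matrix.GeneralLinearGroup (Fin r) K) (M : Matrix (Fin (n + 1)) (Fin r) K)
          (v : Fin r → K), (∀ h, ∀ F ∈ FF, aeval (orb M ρ v h) F = 0) →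
          (orbitOff G M ρ v).encard ≤ bd r D) ∧
        (∀ (K : Type) [Field K] [NumberField K] [Algebra k K] (H : Type) [Group H]
          (ρ : H →* Matrix.GeneralLinearGroup (Fin r) K) (M : Matrix (Fin (n + 1)) (Fin r) K)
          (v : Fin r → K), (∀ h, ∀ F ∈ FF, aeval (orb M ρ v h) F = 0) →
          ∀ p : ℕ, p.Prime → 3 ≤ p →
            (∀ h i j, PInt p ((ρ h : Matrix (Fin r) (Fin r) K) i j)) →
            (orbitOff G M ρ v).encard ≤ (p ^ (Module.finrank ℚ K * r ^ 2) : ℕ)) ∧
        (∀ (K : Type) [Field K] [Algebra k K] (A : Subring K) (F₁ F₂ : Type) [Field F₁] [Field F₂]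
          [Finite F₁] [Finite F₂] (_ : A →+* F₁) (_ : A →+* F₂), ringChar F₁ ≠ ringChar F₂ →
          ∀ (H : Type) [Group H] (ρ : H →* Matrix.GeneralLinearGroup (Fin r) A)
          (M : Matrix (Fin (n + 1)) (Fin r) K) (v : Fin r → K),
          (∀ h, ∀ F ∈ FF, aeval (orb M (ext A ρ) v h) F = 0) →
          (orbitOff G M (ext A ρ) v).encard ≤
            (Nat.card (Matrix.GeneralLinearGroup (Fin r) F₁) *
              Nat.card (Matrix.GeneralLinearGroup (Fin r) F₂) : ℕ)) ∧
        (∀ (K : Type) [Field K] [Algebra k K] (H : Type) [Group H], Group.FG H →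
          ∀ (ρ : H →* Matrix.GeneralLinearGroup (Fin r) K)
          (M : Matrix (Fin (n + 1)) (Fin r) K) (v : Fin r → K),
          (∀ h, ∀ F ∈ FF, aeval (orb M ρ v h) F = 0) → (orbitOff G M ρ v).Finite)) ∧
    (Uniruled (Ideal.span (FF : Set (MvPolynomial (Fin (n + 1)) k))) → ∃ r : ℕ,
      ∀ G : MvPolynomial (Fin (n + 1)) k, (∃ e, G.IsHomogeneous e) →
        G ∉ Ideal.span (FF : Set (MvPolynomial (Fin (n + 1)) k)) →
        ∃ (K : Type) (_ : Field K) (_ : NumberField K) (_ : Algebra k K)
          (ρ : Multiplicative ℤ →* Matrix.GeneralLinearGroup (Fin r) K)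
          (M : Matrix (Fin (n + 1)) (Fin r) K) (v : Fin r → K),
          (∀ p : ℕ, p.Prime → 3 ≤ p →
            ∀ h i j, PInt p ((ρ h : Matrix (Fin r) (Fin r) K) i j)) ∧
          (∀ h, ∀ F ∈ FF, aeval (orb M ρ v h) F = 0) ∧
          (orbitOff G M ρ v).Infinite) := by
  refine ⟨fun hnu r => ?_, fun hu => converse FF hu⟩
  obtain ⟨G, hG1, hG2, hG3⟩ := hyper_poly FF hprime hnu hhom (r * r)
  have hres : ∀ (K : Type) [Field K] [Algebra k K] (A : Subring K) (F₁ F₂ : Type) [Field F₁]
      [Field F₂] [Finite F₁] [Finite F₂] (_ : A →+* F₁) (_ : A →+* F₂),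
      ringChar F₁ ≠ ringChar F₂ →
      ∀ (H : Type) [Group H] (ρ : H →* Matrix.GeneralLinearGroup (Fin r) A)
      (M : Matrix (Fin (n + 1)) (Fin r) K) (v : Fin r → K),
      (∀ h, ∀ F ∈ FF, aeval (orb M (ext A ρ) v h) F = 0) →
      (orbitOff G M (ext A ρ) v).encard ≤
        (Nat.card (Matrix.GeneralLinearGroup (Fin r) F₁) *
          Nat.card (Matrix.GeneralLinearGroup (Fin r) F₂) : ℕ) := by
    intro K _ _ A F₁ F₂ _ _ _ _ φ₁ φ₂ hne H _ ρ M v hX
    exact two_core _ hhom G hG3 A φ₁ φ₂ hne ρ M v hX
  refine ⟨G, hG1, hG2, ?_, ?_, hres, ?_⟩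
  · intro K _ _ _ D hD H _ ρ M v hX
    exact uni_core _ hhom G hG1 hG3 (specDeg_of_numberField K D hD) ρ M v hX
  · intro K _ _ _ H _ ρ M v hX p hp hp3 hρ
    exact main_core FF hhom G r hG3 K p hp hp3 H ρ hρ M v hX
  · intro K _ _ H _ hH ρ M v hX
    have : CharZero K := charZero_of_injective_algebraMap (FaithfulSMul.algebraMap_injective k K)
    refine finite_of_res (FF : Set (MvPolynomial (Fin (n + 1)) k)) G M v ?_ hH ρ hX
    intro A F₁ F₂ _ _ _ _ φ₁ φ₂ hne ρ hX
    exact hres K A F₁ F₂ φ₁ φ₂ hne H ρ M v hX

end Pool.Agent.Results.MP_7ede32_ag.LinearGroupOrbits
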